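import Mathlib
import Pool.Agent.Y964.LW.E5
import Pool.Agent.Y964.LW.C7

set_option autoImplicit false

/-!
The maximum excursions `t(n)` of the `3x+1` map along sparse multiplicative sets of odd integers.

The sets `E` here have density zero (like the odd sums of two squares, `E(N) ~ K N / √(log N)`, or the
integers composed of primes from a set of positive relative density). All errors are relative to the
number of elements of `E`, respectively to the sum of a multiplicative weight.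
-/

namespace Pool.Agent.Results.MP_0a5adf_nt.ExcursionsInSemigroups

open Filter Topology Finset

/-- the accelerated `3x+1` map -/
def T (n : ℕ) : ℕ := if n % 2 = 0 then n / 2 else (3 * n + 1) / 2

/-- `t(n) < ∞` -/
def FiniteExcursion (n : ℕ) : Prop := ∃ M : ℕ, ∀ k, T^[k] n ≤ M

/-- `t(n) ≤ v` -/
def ExcursionLE (n : ℕ) (v : ℝ) : Prop := ∀ k, ((T^[k] n : ℕ) : ℝ) ≤ v

/-- the trajectory of `n` exceeds `V` before it reaches a value `≤ y` -/
def ExceedsBefore (V y : ℝ) (n : ℕ) : Prop :=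
  ∃ k, V < (T^[k] n : ℕ) ∧ ∀ j ≤ k, y < (T^[j] n : ℕ)

/-- the positive integers with the property `P` have the natural density `δ` -/
def HasDensity (P : ℕ → Prop) (δ : ℝ) : Prop :=
  Tendsto (fun N : ℕ => ({n : ℕ | 1 ≤ n ∧ n ≤ N ∧ P n}.ncard : ℝ) / N) atTop (𝓝 δ)

/-- the number of the odd terms among `n, T n, ..., T^(k-1) n` -/
def oddTerms (k n : ℕ) : ℕ := ∑ i ∈ range k, T^[i] n % 2

/-- the first `K` steps multiply by less than `lam`: `3^a < lam * 2^k` for all `k ≤ K`, where `a` is the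
number of the odd terms among the first `k` ones. This depends on `n` modulo `2^K` only. -/
def Safe (K : ℕ) (lam : ℝ) (n : ℕ) : Prop := ∀ k ≤ K, (3 : ℝ) ^ oddTerms k n < lam * 2 ^ k

/-- the logarithms of the trajectory of `n` follow the line of slope `-log (4/3) / 2` with error at most
`η log n`, until the trajectory reaches a value `≤ y` -/
def Regular (η y : ℝ) (n : ℕ) : Prop :=
  ∃ m : ℕ, ((T^[m] n : ℕ) : ℝ) ≤ y ∧
    ∀ j ≤ m, |Real.log (T^[j] n : ℕ) - Real.log n + Real.log (4 / 3) / 2 * j| ≤ η * Real.log n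

/-- `∑_{p ≤ x} h p ≥ c x / log x` for all `x ≥ x₀` (sum over primes). -/
def PrimeMean (c : ℝ) (x₀ : ℕ) (h : ℕ → ℝ) : Prop :=
  ∀ x : ℕ, x₀ ≤ x → c * (x / Real.log x) ≤ ∑ p ∈ (Icc 1 x).filter Nat.Prime, h p

/-- WEIGHTS: multiplicative functions `h` with values in `[0, 1]`, supported on the odd integers, with
`∑_{p ≤ x} h p ≥ c x / log x` for `x ≥ x₀`. -/
def Weight (c : ℝ) (x₀ : ℕ) (h : ArithmeticFunction ℝ) : Prop :=
  h.IsMultiplicative ∧ (∀ n, 0 ≤ h n ∧ h n ≤ 1) ∧ (∀ n, Even n → h n = 0) ∧ PrimeMean c x₀ h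

open scoped Classical in
/-- the sum of `h n` over the `n ≤ N` with the property `P` -/
noncomputable def mass (h : ArithmeticFunction ℝ) (N : ℕ) (P : ℕ → Prop) : ℝ := ∑ n ∈ (Icc 1 N).filter P, h n

/-- the sum of `h n` over the `n ≤ N` -/
noncomputable def total (h : ArithmeticFunction ℝ) (N : ℕ) : ℝ := ∑ n ∈ Icc 1 N, h n

/-- `E` contains at least `c x / log x` primes `p ≤ x`, for all `x ≥ x₀`. -/
def ManyPrimes (c : ℝ) (x₀ : ℕ) (E : Set ℕ) : Prop :=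
  ∀ x : ℕ, x₀ ≤ x → c * (x / Real.log x) ≤ {p : ℕ | p.Prime ∧ p ≤ x ∧ p ∈ E}.ncard

/-- `E` is a multiplicative set of odd positive integers: it contains `1`, and the product of coprime
integers is in `E` if and only if both factors are. -/
def OddMultSet (E : Set ℕ) : Prop :=
  (∀ n ∈ E, Odd n) ∧ 1 ∈ E ∧ ∀ m n : ℕ, m.Coprime n → (m * n ∈ E ↔ m ∈ E ∧ n ∈ E)

/-- the number of the `n ≤ N` in `E` with the property `P` -/
noncomputable def count (E : Set ℕ) (N : ℕ) (P : ℕ → Prop) : ℝ := ({n : ℕ | n ≤ N ∧ n ∈ E ∧ P n}.ncard : ℝ)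

/-- `E` is equidistributed in the odd residue classes modulo `2^K`, for every `K ≥ 1`. -/
def Equidistributed (E : Set ℕ) : Prop := ∀ K a : ℕ, 1 ≤ K → Odd a →
  Tendsto (fun N : ℕ => count E N (fun n => n % 2 ^ K = a % 2 ^ K) / count E N (fun _ => True)) atTop (𝓝 (2 / 2 ^ K))

/-- The odd positive sums of two squares. -/
def OddTwoSquares : Set ℕ := {n | Odd n ∧ ∃ x y : ℕ, n = x ^ 2 + y ^ 2}

/-- The odd positive integers all of whose prime factors are congruent modulo `q` to elements of `A`. -/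
def OddPrimesIn (q : ℕ) (A : Set ℕ) : Set ℕ := {n | Odd n ∧ ∀ p : ℕ, p.Prime → p ∣ n → ∃ a ∈ A, p % q = a % q}

theorem T_eq : T = Pool.Agent.Helper894.Collatz.T := rfl

theorem T_eq' : T = Pool.Agent.H499R2.ND.Tn := by
  funext n; rfl

theorem safe_iff (K : ℕ) (lam : ℝ) (n : ℕ) : Safe K lam n ↔ ¬ Pool.Agent.H828R3.Exc.PP lam K n := by
  unfold Safe Pool.Agent.H828R3.Exc.PP
  push Not
  exact Iff.rfl

theorem exc_iff (lam y : ℝ) (n : ℕ) : ExceedsBefore (lam * n) y n ↔ Pool.Agent.W36.SL.Exc lam y n := Iff.rfl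

theorem le_iff (lam : ℝ) (n : ℕ) : ExcursionLE n (lam * n) ↔
    ∀ k, ((Pool.Agent.H499R2.ND.Tn^[k] n : ℕ) : ℝ) ≤ lam * n := by
  unfold ExcursionLE
  rw [T_eq']

theorem fin_iff (n : ℕ) : FiniteExcursion n ↔ Pool.Agent.H499R2.ND.Bdd n := by
  unfold FiniteExcursion Pool.Agent.H499R2.ND.Bdd
  rw [T_eq']

theorem mass_eq (h : ArithmeticFunction ℝ) (N : ℕ) (P Q : ℕ → Prop) (hPQ : ∀ n, P n ↔ Q n) :
    mass h N P = Pool.Agent.Y964.LW.SS h N Q := by
  unfold mass Pool.Agent.Y964.LW.SS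
  rw [sum_filter]
  apply sum_congr rfl
  intro n _
  by_cases h1 : P n
  · rw [if_pos h1, if_pos ((hPQ n).1 h1)]
  · rw [if_neg h1, if_neg (fun h2 => h1 ((hPQ n).2 h2))]

theorem Weight.wt {c : ℝ} {x₀ : ℕ} {h : ArithmeticFunction ℝ} (w : Weight c x₀ h) :
    Pool.Agent.Y964.LW.Wt c x₀ h := Pool.Agent.Y964.LW.Wt_of w.1 w.2.1 w.2.2.1 w.2.2.2

theorem reg_of {η y V : ℝ} {n : ℕ} (h : Pool.Agent.H828R3.Exc.Pr η y V n) : Regular η y n := by
  obtain ⟨m, h1, h2⟩ := h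
  exact ⟨m, h1, fun j hj => (h2 j hj).1⟩

open scoped Classical in
/-- MAXIMUM EXCURSIONS ALONG MULTIPLICATIVE SETS AND FUNCTIONS.
Let `β > 0` be the natural density of the `n` with `t(n) < ∞`, and for `lam > 1` let `q lam` be the limit of
the proportion of the safe residue classes modulo `2^K`, `1 - 1 / lam ≤ q lam ≤ 1`. There is `ρ < 1` such
that for all `c > 0` and `x₀` there is `C` with:
(1) THE LAW of `t(n) / n`. For all `lam > 1`, `K ≥ 1`, `ε > 0` and `N ≥ N₀`, for all weights `h` and all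
multiplicative `g` with `|g| ≤ h`, the sum of `g n` over the `n ≤ N` with `t(n) ≤ lam n` is `β` times the sum
of `g n` over the safe `n ≤ N`, up to `(C ρ^K + ε) ∑ h`.
(2) THE TAIL. For all `lam ≥ 1`, `N ≥ N₀` and all weights `h` the sum of `h n` over the `n ≤ N` with
`lam n < t(n) < ∞` is at most `C / lam ∑ h`. For every `f` tending to infinity (`f n = n`, say) the sum of
`h n` over the `n ≤ N` with `f(n) n < t(n) < ∞` is `o(∑ h)`, uniformly in `h`.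
Moreover
(3) for every `A` there is `B` such that the sum of `h n` over the `n ≤ N` whose trajectory exceeds `lam n`
before it reaches a value `≤ y` is at most `C / lam ∑ h`, uniformly for `y ≥ (log N)^B`,
`1 ≤ lam ≤ (log N)^A`; for every `θ > 0` there is `v > 0` with the same bound for `y ≥ N^θ`,
`1 ≤ lam ≤ N^v`;
(4) for fixed `lam > 1`, `θ < 1` and `(log N)^B ≤ y ≤ N^θ`, the trajectory of `n` exceeds `lam n` before it
reaches a value `≤ y` if and only if `n` is not safe, except for a set of mass at most `C ρ^K ∑ h`;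
(5) the trajectories follow the line of slope `-log (4/3) / 2` with error `≤ η log n` until they reach a value
`≤ y`, except for a set of mass at most `∑ h / (log N)^A`, for `y ≥ (log N)^B`, `B` depending on `A`, `η`.
(6) SETS. The indicator function of a multiplicative set `E` of odd integers with many primes is a
weight, and (1) holds for the numbers of the `n ≤ N` in `E`, uniformly in `E`; if `E` is equidistributed
in the odd classes modulo powers of two, the `n` in `E` with `t(n) ≤ lam n` have the relative density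
`β q (2 lam / 3)` in `E`.
(7) The odd sums of two squares, and the odd integers composed of primes in given residue classes modulo
`q` (at least one of them prime to `q`), are such sets `E`. -/
theorem result : ∃ (β : ℝ) (q : ℝ → ℝ) (ρ : ℝ), 0 < β ∧ β ≤ 1 ∧
    (β = 1 ↔ ∀ n : ℕ, 1 ≤ n → FiniteExcursion n) ∧ HasDensity FiniteExcursion β ∧ 0 < ρ ∧ ρ < 1 ∧
    (∀ lam : ℝ, 1 < lam → 1 - 1 / lam ≤ q lam ∧ q lam ≤ 1 ∧
      Tendsto (fun K : ℕ => (((range (2 ^ K)).filter (Safe K lam)).card : ℝ) / 2 ^ K) atTop (𝓝 (q lam))) ∧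
    (∀ (K : ℕ) (lam : ℝ) (n : ℕ), Safe K lam (n % 2 ^ K) ↔ Safe K lam n) ∧
    (∀ (c : ℝ) (x₀ : ℕ), 0 < c → ∃ C : ℝ, 0 < C ∧
      (∀ lam : ℝ, 1 < lam → ∀ (K : ℕ) (ε : ℝ), 1 ≤ K → 0 < ε → ∃ N₀ : ℕ, ∀ N : ℕ, N₀ ≤ N →
        ∀ h : ArithmeticFunction ℝ, Weight c x₀ h → ∀ g : ArithmeticFunction ℂ, g.IsMultiplicative →
        (∀ n, ‖g n‖ ≤ h n) →
        ‖∑ n ∈ (Icc 1 N).filter (fun n => ExcursionLE n (lam * n)), g n -
          β * ∑ n ∈ (Icc 1 N).filter (Safe K lam), g n‖ ≤ (C * ρ ^ K + ε) * total h N) ∧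
      (∀ lam : ℝ, 1 ≤ lam → ∃ N₀ : ℕ, ∀ N : ℕ, N₀ ≤ N → ∀ h : ArithmeticFunction ℝ, Weight c x₀ h →
        mass h N (fun n => FiniteExcursion n ∧ ¬ ExcursionLE n (lam * n)) ≤ C / lam * total h N)) ∧
    (∀ (c : ℝ) (x₀ : ℕ), 0 < c → ∀ f : ℕ → ℝ, Tendsto f atTop atTop → ∀ ε : ℝ, 0 < ε →
      ∃ N₀ : ℕ, ∀ N : ℕ, N₀ ≤ N → ∀ h : ArithmeticFunction ℝ, Weight c x₀ h →
        mass h N (fun n => FiniteExcursion n ∧ ¬ ExcursionLE n (f n * n)) ≤ ε * total h N) ∧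
    (∀ A : ℕ, ∃ B : ℝ, ∀ (c : ℝ) (x₀ : ℕ), 0 < c → ∃ (C : ℝ) (N₀ : ℕ), 0 < C ∧ ∀ N : ℕ, N₀ ≤ N →
      ∀ y : ℝ, Real.log N ^ B ≤ y → ∀ lam : ℝ, 1 ≤ lam → lam ≤ Real.log N ^ A →
      ∀ h : ArithmeticFunction ℝ, Weight c x₀ h →
        mass h N (fun n => ExceedsBefore (lam * n) y n) ≤ C / lam * total h N) ∧
    (∀ θ : ℝ, 0 < θ → ∃ v : ℝ, 0 < v ∧ ∀ (c : ℝ) (x₀ : ℕ), 0 < c → ∃ (C : ℝ) (N₀ : ℕ), 0 < C ∧
      ∀ N : ℕ, N₀ ≤ N → ∀ y : ℝ, (N : ℝ) ^ θ ≤ y → ∀ lam : ℝ, 1 ≤ lam → lam ≤ (N : ℝ) ^ v →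
      ∀ h : ArithmeticFunction ℝ, Weight c x₀ h →
        mass h N (fun n => ExceedsBefore (lam * n) y n) ≤ C / lam * total h N) ∧
    (∃ B : ℝ, ∀ (c : ℝ) (x₀ : ℕ), 0 < c → ∃ C : ℝ, 0 < C ∧ ∀ θ : ℝ, θ < 1 → ∀ lam : ℝ, 1 < lam → ∀ K : ℕ,
      ∃ N₀ : ℕ, ∀ N : ℕ, N₀ ≤ N → ∀ y : ℝ, Real.log N ^ B ≤ y → y ≤ (N : ℝ) ^ θ →
      ∀ h : ArithmeticFunction ℝ, Weight c x₀ h →
        mass h N (fun n => ¬ (ExceedsBefore (lam * n) y n ↔ ¬ Safe K lam n)) ≤ C * ρ ^ K * total h N) ∧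
    (∀ (A : ℕ) (η : ℝ), 0 < η → ∃ B : ℝ, ∀ (c : ℝ) (x₀ : ℕ), 0 < c → ∃ N₀ : ℕ, ∀ N : ℕ, N₀ ≤ N →
      ∀ y : ℝ, Real.log N ^ B ≤ y → ∀ h : ArithmeticFunction ℝ, Weight c x₀ h →
        mass h N (fun n => ¬ Regular η y n) ≤ 1 / Real.log N ^ A * total h N) ∧
    (∀ (c : ℝ) (x₀ : ℕ) (E : Set ℕ), OddMultSet E → ManyPrimes c x₀ E →
      ∃ h : ArithmeticFunction ℝ, Weight c x₀ h ∧ (∀ n, h n = if n ∈ E then 1 else 0) ∧
        (∀ (N : ℕ) (P : ℕ → Prop), mass h N P = count E N P) ∧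
        ∀ N : ℕ, total h N = count E N (fun _ => True)) ∧
    (∀ (c : ℝ) (x₀ : ℕ), 0 < c → ∃ C : ℝ, 0 < C ∧ ∀ lam : ℝ, 1 < lam → ∀ (K : ℕ) (ε : ℝ), 1 ≤ K → 0 < ε →
      ∃ N₀ : ℕ, ∀ N : ℕ, N₀ ≤ N → ∀ E : Set ℕ, OddMultSet E → ManyPrimes c x₀ E →
        |count E N (fun n => ExcursionLE n (lam * n)) - β * count E N (Safe K lam)| ≤
          (C * ρ ^ K + ε) * count E N (fun _ => True)) ∧
    (∀ (c : ℝ) (x₀ : ℕ) (E : Set ℕ), 0 < c → OddMultSet E → ManyPrimes c x₀ E → Equidistributed E →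
      ∀ lam : ℝ, 1 < lam →
        Tendsto (fun N : ℕ => count E N (fun n => ExcursionLE n (lam * n)) / count E N (fun _ => True)) atTop
          (𝓝 (β * q (2 * lam / 3)))) ∧
    (OddMultSet OddTwoSquares ∧ ∃ c : ℝ, 0 < c ∧ ∃ x₀ : ℕ, ManyPrimes c x₀ OddTwoSquares) ∧
    (∀ (q a : ℕ) (A : Set ℕ), 1 ≤ q → a ∈ A → a.Coprime q → OddMultSet (OddPrimesIn q A) ∧
      ∃ c : ℝ, 0 < c ∧ ∃ x₀ : ℕ, ManyPrimes c x₀ (OddPrimesIn q A)) := by
  obtain ⟨β, hβ0, hβ1, hβ2, hβ⟩ := Pool.Agent.H499R2.ND.Bdd_density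
  have hset : ∀ E : Set ℕ, OddMultSet E → (0 ∉ E ∧ 1 ∈ E ∧ ∀ m n : ℕ, m.Coprime n → (m * n ∈ E ↔ m ∈ E ∧ n ∈ E)) :=
    fun E hE => ⟨fun h => by have := hE.1 0 h; simp at this, hE.2⟩
  have hsf : ∀ K : ℕ, ∀ lam : ℝ, (fun n => Safe K lam n) = (fun n => ¬ Pool.Agent.H828R3.Exc.PP lam K n) :=
    fun K lam => funext fun n => propext (safe_iff K lam n)
  have hle : ∀ lam : ℝ, (fun n : ℕ => ExcursionLE n (lam * n)) =
      (fun n : ℕ => ∀ k, ((Pool.Agent.H499R2.ND.Tn^[k] n : ℕ) : ℝ) ≤ lam * n) :=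
    fun lam => funext fun n => propext (le_iff lam n)
  have hct : ∀ (E : Set ℕ) (N : ℕ), count E N (fun _ => True) = ({n : ℕ | n ≤ N ∧ n ∈ E}.ncard : ℝ) := by
    intro E N
    unfold count
    simp
  refine ⟨β, Pool.Agent.W36.SL.q, Pool.Agent.W36.SL.b, hβ0, hβ1, ?_, ?_, Pool.Agent.W36.SL.b_pos,
    Pool.Agent.W36.SL.b_lt_one, ?_, ?_, ?_, ?_, ?_, ?_, ?_, ?_, ?_, ?_, ?_, ?_, ?_⟩
  · rw [hβ2]
    exact forall_congr' fun n => forall_congr' fun _ => (fin_iff n).symm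
  · exact Pool.Agent.H499R2.LT.Dn_iff (fun n _ => (fin_iff n).symm) hβ
  · intro lam hlam
    refine ⟨Pool.Agent.W36.SL.q_ge (by linarith), Pool.Agent.W36.SL.q_le_one lam, ?_⟩
    refine (Pool.Agent.W36.SL.s_tendsto lam).congr fun K => ?_
    have h1 := Pool.Agent.W36.SL.card_PP K lam
    have h2 := Finset.card_filter_add_card_filter_not (s := range (2 ^ K))
      (fun n => Pool.Agent.H828R3.Exc.PP lam K n)
    rw [card_range] at h2
    have h3 : (((range (2 ^ K)).filter (fun n => Pool.Agent.H828R3.Exc.PP lam K n)).card : ℝ) +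
        (((range (2 ^ K)).filter (fun n => ¬ Pool.Agent.H828R3.Exc.PP lam K n)).card : ℝ) = 2 ^ K := by
      exact_mod_cast h2
    have h4 : (((range (2 ^ K)).filter (Safe K lam)).card : ℝ) =
        (((range (2 ^ K)).filter (fun n => ¬ Pool.Agent.H828R3.Exc.PP lam K n)).card : ℝ) := by
      congr 2
      ext n
      rw [mem_filter, mem_filter, safe_iff]
    have h5 : (((range (2 ^ K)).filter (fun n => Pool.Agent.H828R3.Exc.PP lam K n)).card : ℝ) =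
        2 ^ K * (1 - Pool.Agent.W36.SL.s K lam) := by
      rw [← h1]
    rw [h4, eq_div_iff (by positivity)]
    linarith
  · intro K lam n
    rw [safe_iff, safe_iff, Pool.Agent.W36.SL.PP_mod]
  · intro c x₀ hc
    obtain ⟨C1, hC1, k1⟩ := Pool.Agent.Y964.LW.law_fn hβ hc x₀
    obtain ⟨C2, hC2, k2⟩ := Pool.Agent.Y964.LW.late_tail hβ hc x₀
    refine ⟨C1 + C2, by linarith, fun lam hlam K ε hK hε => ?_, fun lam hlam => ?_⟩
    · obtain ⟨N0, h0⟩ := k1 lam hlam K ε hK hε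
      refine ⟨N0, fun N hN h w g gM hg => ?_⟩
      have h1 := h0 N hN h w.1 w.2.1 w.2.2.1 w.2.2.2 g gM hg
      have e1 : ∑ n ∈ (Icc 1 N).filter (fun n => ExcursionLE n (lam * n)), g n =
          ∑ n ∈ (Icc 1 N).filter (fun n => ∀ k, ((Pool.Agent.H499R2.ND.Tn^[k] n : ℕ) : ℝ) ≤ lam * n), g n := by
        rw [sum_filter, sum_filter]
        apply sum_congr rfl
        intro n _
        by_cases h2 : ExcursionLE n (lam * n)
        · rw [if_pos h2, if_pos ((le_iff lam n).1 h2)]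
        · rw [if_neg h2, if_neg (fun h3 => h2 ((le_iff lam n).2 h3))]
      have e2 : ∑ n ∈ (Icc 1 N).filter (Safe K lam), g n =
          ∑ n ∈ (Icc 1 N).filter (fun n => ¬ Pool.Agent.H828R3.Exc.PP lam K n), g n := by
        rw [sum_filter, sum_filter]
        apply sum_congr rfl
        intro n _
        by_cases h2 : Safe K lam n
        · rw [if_pos h2, if_pos ((safe_iff K lam n).1 h2)]
        · rw [if_neg h2, if_neg (fun h3 => h2 ((safe_iff K lam n).2 h3))]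
      rw [e1, e2]
      refine h1.trans ?_
      have hT : 0 ≤ total h N := sum_nonneg fun n _ => (w.2.1 n).1
      apply mul_le_mul_of_nonneg_right _ hT
      have hb : 0 < Pool.Agent.W36.SL.b ^ K := pow_pos Pool.Agent.W36.SL.b_pos K
      nlinarith
    · obtain ⟨N0, h0⟩ := k2 lam hlam
      refine ⟨N0, fun N hN h w => ?_⟩
      rw [mass_eq h N _ (fun n => Pool.Agent.H499R2.ND.Bdd n ∧ ∃ k, lam * n < ((Pool.Agent.H499R2.ND.Tn^[k] n : ℕ) : ℝ))
        (fun n => by rw [fin_iff, le_iff]; push Not; exact Iff.rfl)]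
      refine (h0 N hN h w.wt).trans ?_
      have hT : 0 ≤ total h N := sum_nonneg fun n _ => (w.2.1 n).1
      apply mul_le_mul_of_nonneg_right _ hT
      apply div_le_div_of_nonneg_right (by linarith) (by linarith)
  · intro c x₀ hc f hf ε hε
    obtain ⟨N0, h0⟩ := Pool.Agent.Y964.LW.late_f hβ hc x₀ hf hε
    refine ⟨N0, fun N hN h w => ?_⟩
    rw [mass_eq h N _ (fun n => Pool.Agent.H499R2.ND.Bdd n ∧ ∃ k, f n * n < ((Pool.Agent.H499R2.ND.Tn^[k] n : ℕ) : ℝ))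
      (fun n => by rw [fin_iff, le_iff (f n)]; push Not; exact Iff.rfl)]
    exact h0 N hN h w.wt
  · intro A
    obtain ⟨B, _, k1⟩ := Pool.Agent.Y964.LW.exc_tail A
    refine ⟨B, fun c x₀ hc => ?_⟩
    obtain ⟨C, N0, hC, h0⟩ := k1 c hc x₀
    refine ⟨C, N0, hC, fun N hN y hy lam h1 h2 h w => ?_⟩
    rw [mass_eq h N _ (Pool.Agent.W36.SL.Exc lam y) (fun n => exc_iff lam y n)]
    exact h0 N hN y hy lam h1 h2 h w.wt
  · intro θ hθ
    obtain ⟨v, hv, k1⟩ := Pool.Agent.Y964.LW.exc_coarse hθ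
    refine ⟨v, hv, fun c x₀ hc => ?_⟩
    obtain ⟨C, N0, hC, h0⟩ := k1 c hc x₀
    refine ⟨C, N0, hC, fun N hN y hy lam h1 h2 h w => ?_⟩
    rw [mass_eq h N _ (Pool.Agent.W36.SL.Exc lam y) (fun n => exc_iff lam y n)]
    exact h0 N hN y hy lam h1 h2 h w.wt
  · obtain ⟨B, _, k1⟩ := Pool.Agent.Y964.LW.exc_loc
    refine ⟨B, fun c x₀ hc => ?_⟩
    obtain ⟨C, hC, k2⟩ := k1 c hc x₀
    refine ⟨C, hC, fun θ hθ lam hlam K => ?_⟩
    obtain ⟨N0, h0⟩ := k2 θ hθ lam hlam K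
    refine ⟨N0, fun N hN y hy1 hy2 h w => ?_⟩
    rw [mass_eq h N _ (fun n => ¬ (Pool.Agent.W36.SL.Exc lam y n ↔ Pool.Agent.H828R3.Exc.PP lam K n))
      (fun n => by rw [exc_iff, safe_iff, not_not])]
    exact h0 N hN y hy1 hy2 h w.wt
  · intro A η hη
    obtain ⟨B, _, k1⟩ := Pool.Agent.Y964.LW.nonreg A hη
    refine ⟨B, fun c x₀ hc => ?_⟩
    obtain ⟨N0, h0⟩ := k1 c hc x₀
    refine ⟨N0, fun N hN y hy h w => ?_⟩
    rw [mass_eq h N _ (fun n => ¬ Regular η y n) (fun n => Iff.rfl)]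
    refine le_trans ?_ (h0 N hN y hy h w.wt)
    exact Pool.Agent.Y964.LW.SS_mono w.wt.nn (fun n _ _ hr hp => hr (reg_of hp))
  · intro c x₀ E hE hp
    obtain ⟨h, g, hv, gv, hM, gM, h01, hg, hyp, cntE, cnt0⟩ := Pool.Agent.Y964.LW.set_weight (hset E hE) hp
    refine ⟨h, ⟨hM, h01, fun n hn => ?_, hyp⟩, hv, fun N P => (cntE N P).symm, fun N => ?_⟩
    · rw [hv, if_neg]
      intro h3
      exact (Nat.not_odd_iff_even.2 hn) (hE.1 n h3)
    · rw [hct]
      exact (cnt0 N).symm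
  · intro c x₀ hc
    obtain ⟨C, hC, k1⟩ := Pool.Agent.Y964.LW.law_set hβ hc x₀
    refine ⟨C, hC, fun lam hlam K ε hK hε => ?_⟩
    obtain ⟨N0, h0⟩ := k1 lam hlam K ε hK hε
    refine ⟨N0, fun N hN E hE hp => ?_⟩
    rw [hct, hle, show Safe K lam = (fun n => Safe K lam n) from rfl, hsf]
    exact h0 N hN E (hset E hE) hE.1 hp
  · intro c x₀ E hc hE hp heq lam hlam
    have h1 := Pool.Agent.Y964.LW.law_equi hβ hβ0.le hβ1 hc x₀ (hset E hE) hE.1 hp (fun K a hK ha => by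
      have h2 := heq K a hK ha
      simp only [hct] at h2
      exact h2) hlam
    simp only [hct, hle]
    exact h1
  · exact Pool.Agent.Y964.LW.odd_two_sq (fun n => Iff.rfl)
  · intro q a A hq haA ha
    exact Pool.Agent.Y964.LW.odd_primes_in hq (fun n => Iff.rfl) haA ha

end Pool.Agent.Results.MP_0a5adf_nt.ExcursionsInSemigroups
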