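import Mathlib
import Pool.Agent.Y967.CM.D
import Pool.Agent.Y967.CM.E
import Pool.Agent.Y967.CM.SP
import Pool.Agent.Y967.CM.SQ

set_option autoImplicit false

/-!
# Maximum excursions along sparse sequences

For almost all `n` all the integers whose trajectory passes near one of `x n, 3 x n, 9 x n, ...` have the
same maximum excursion as `x n`, unless these excursions are trivial up to a factor `n ^ κ`; here `x` is
any sequence which is spread modulo powers of two, like the primes, the values of polynomials or the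
powers `3 ^ n`, `3 ^ p`. Almost all blocks of consecutive Mersenne numbers `2 ^ n - 1, ..., 2 ^ (n + j) - 1`
have the same maximum excursion, or all their terms are at most `3 ^ n n ^ κ`.
-/

namespace Pool.Agent.Results.MP_0a5adf_nt.ExcursionsOfMersenneNumbers

open Filter Topology

/-- The accelerated `3x+1` function. -/
def T (n : ℕ) : ℕ := if n % 2 = 0 then n / 2 else (3 * n + 1) / 2

/-- The maximum excursion. -/
noncomputable def t (n : ℕ) : ℕ∞ := ⨆ k : ℕ, ((T^[k] n : ℕ) : ℕ∞)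

/-- All the terms of the trajectory of `n` are at most `B`. -/
def Below (n : ℕ) (B : ℝ) : Prop := ∀ k : ℕ, ((T^[k] n : ℕ) : ℝ) ≤ B

/-- The sequence `x` is spread modulo powers of two: there is `δ > 0` such that for every `ε > 0` there
are `η > 0` and `N₀` such that, for `N ≥ N₀` and `2 ^ t ≤ N ^ δ`, at most `η 2 ^ t` classes modulo `2 ^ t`
contain together at most `ε N` of the integers `x n`, `1 ≤ n ≤ N`. -/
def Spread (x : ℕ → ℤ) : Prop :=
  ∃ δ : ℝ, 0 < δ ∧ ∀ ε : ℝ, 0 < ε → ∃ η : ℝ, 0 < η ∧ ∃ N₀ : ℕ, ∀ N : ℕ, N₀ ≤ N →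
    ∀ t : ℕ, (2 : ℝ) ^ t ≤ (N : ℝ) ^ δ → ∀ A : Finset ℤ, (A.card : ℝ) ≤ η * 2 ^ t →
      (({n | 1 ≤ n ∧ n ≤ N ∧ ∃ a ∈ A, x n ≡ a [ZMOD 2 ^ t]} : Set ℕ).ncard : ℝ) ≤ ε * N

/-- `P n` holds for almost all `n`, in the sense of natural density. -/
def AlmostAll (P : ℕ → Prop) : Prop :=
  Tendsto (fun N : ℕ => (({n | 1 ≤ n ∧ n ≤ N ∧ ¬ P n} : Set ℕ).ncard : ℝ) / N) atTop (𝓝 0)

/-- The range: `W n = √ log n / (log log n) ^ 17`. -/
noncomputable def W (n : ℕ) : ℝ := √ (Real.log n) / (Real.log (Real.log n)) ^ 17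

open Pool.Agent.Y967.CM

theorem ncard_eq (P : ℕ → Prop) [DecidablePred P] (N : ℕ) :
    ({n | 1 ≤ n ∧ n ≤ N ∧ P n} : Set ℕ).ncard = ((Finset.Icc 1 N).filter P).card := by
  rw [← Set.ncard_coe_finset]
  congr 1
  ext n
  simp only [Set.mem_ofPred_eq, Finset.coe_filter, Finset.mem_Icc, and_assoc]

theorem spread_iff (x : ℕ → ℤ) : Spread x ↔ Pool.Agent.Y967.CM.Spread x := by
  classical
  have key : ∀ (N t : ℕ) (A : Finset ℤ),
      (({n | 1 ≤ n ∧ n ≤ N ∧ ∃ a ∈ A, x n ≡ a [ZMOD 2 ^ t]} : Set ℕ).ncard : ℝ) =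
      (((Finset.Icc 1 N).filter (fun n => ∃ a ∈ A, x n ≡ a [ZMOD 2 ^ t])).card : ℝ) := by
    intro N t A
    rw [ncard_eq]
  unfold Spread Pool.Agent.Y967.CM.Spread
  simp only [key]

theorem almost_of {P : ℕ → Prop} (h : ∀ ε : ℝ, 0 < ε → ∀ᶠ N : ℕ in atTop,
    (({n | 1 ≤ n ∧ n ≤ N ∧ ¬ P n} : Set ℕ).ncard : ℝ) ≤ ε * N) : AlmostAll P := by
  unfold AlmostAll
  rw [Metric.tendsto_nhds]
  intro ε hε
  filter_upwards [h (ε / 2) (by positivity), eventually_gt_atTop 0] with N h1 h2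
  have hN : (0 : ℝ) < N := by exact_mod_cast h2
  rw [Real.dist_eq, sub_zero, abs_of_nonneg (by positivity), div_lt_iff₀ hN]
  nlinarith

theorem AlmostAll.mono {P Q : ℕ → Prop} (h : AlmostAll P) (hPQ : ∀ n, P n → Q n) : AlmostAll Q := by
  classical
  unfold AlmostAll at *
  refine squeeze_zero (fun N => by positivity) (fun N => ?_) h
  apply div_le_div_of_nonneg_right _ (Nat.cast_nonneg N)
  rw [ncard_eq, ncard_eq]
  have : ((Finset.Icc 1 N).filter (fun n => ¬ Q n)) ⊆ ((Finset.Icc 1 N).filter (fun n => ¬ P n)) := by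
    intro n hn
    rw [Finset.mem_filter] at hn ⊢
    exact ⟨hn.1, fun h => hn.2 (hPQ n h)⟩
  exact_mod_cast Finset.card_le_card this

theorem AlmostAll.and_large {P : ℕ → Prop} (h : AlmostAll P) (N₁ : ℕ) :
    AlmostAll (fun n => P n ∧ N₁ ≤ n) := by
  classical
  unfold AlmostAll at *
  have h2 : Tendsto (fun N : ℕ => (N₁ : ℝ) / N) atTop (𝓝 0) := tendsto_const_div_atTop_nhds_zero_nat _
  have h3 := h.add h2
  rw [add_zero] at h3
  refine squeeze_zero (fun N => by positivity) (fun N => ?_) h3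
  rw [← add_div]
  apply div_le_div_of_nonneg_right _ (Nat.cast_nonneg N)
  rw [ncard_eq, ncard_eq]
  have h4 : ((Finset.Icc 1 N).filter (fun n => ¬ (P n ∧ N₁ ≤ n))) ⊆
      ((Finset.Icc 1 N).filter (fun n => ¬ P n)) ∪ Finset.range N₁ := by
    intro n hn
    rw [Finset.mem_filter] at hn
    rw [Finset.mem_union, Finset.mem_filter, Finset.mem_range]
    by_contra hcon
    rw [not_or, not_lt] at hcon
    apply hn.2
    refine ⟨?_, hcon.2⟩
    by_contra h5
    exact hcon.1 ⟨hn.1, h5⟩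
  have h5 := (Finset.card_le_card h4).trans (Finset.card_union_le _ _)
  rw [Finset.card_range] at h5
  exact_mod_cast h5

theorem sq_one {b : ℤ} (h : b ^ 2 = 1) : b = 1 ∨ b = -1 := by
  have h2 : (b - 1) * (b + 1) = 0 := by linear_combination h
  rcases mul_eq_zero.1 h2 with h3 | h3
  · left; omega
  · right; omega

theorem ll_ev : ∃ N₁ : ℕ, ∀ n ≥ N₁, 1 ≤ Real.log (Real.log n) := by
  have hll : Tendsto (fun N : ℕ => Real.log (Real.log N)) atTop atTop :=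
    Real.tendsto_log_atTop.comp log_nat_tendsto
  exact eventually_atTop.1 (hll.eventually_ge_atTop 1)

theorem dat_all {x : ℕ → ℕ} (hx : Spread (fun n => (x n : ℤ))) {κ : ℝ} (hκ : 0 < κ) :
    AlmostAll (fun n => Dat κ x n ∧ 0 ≤ kap n) := by
  classical
  obtain ⟨δ, hδ, h⟩ := ((spread_iff _).1 hx).spr
  have h1 : AlmostAll (Dat κ x) := by
    apply almost_of
    intro ε hε
    filter_upwards [dat_small hδ h hκ hε] with N hN
    rw [ncard_eq]
    refine le_trans (le_of_eq ?_) hN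
    congr!
  obtain ⟨N₁, hN₁⟩ := ll_ev
  exact (h1.and_large N₁).mono (fun n hn => ⟨hn.1, kap_nonneg (hN₁ n hn.2)⟩)

open Pool.Agent.H499R2.ND (Tn)

/-- The trajectory of a Mersenne number at the beginning. -/
theorem iter_mersenne (m : ℕ) : ∀ j l : ℕ, Tn^[j] (3 ^ l * 2 ^ (m + j) - 1) = 3 ^ (l + j) * 2 ^ m - 1 := by
  intro j
  induction j with
  | zero => intro l; rfl
  | succ j ih =>
    intro l
    rw [Function.iterate_succ_apply]
    have e : Tn (3 ^ l * 2 ^ (m + (j + 1)) - 1) = 3 ^ (l + 1) * 2 ^ (m + j) - 1 := by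
      have h1 : 1 ≤ 3 ^ l * 2 ^ (m + j) := Nat.one_le_iff_ne_zero.2 (by positivity)
      have h2 : 3 ^ l * 2 ^ (m + (j + 1)) = 2 * (3 ^ l * 2 ^ (m + j)) := by ring
      have h3 : 3 ^ (l + 1) * 2 ^ (m + j) = 3 * (3 ^ l * 2 ^ (m + j)) := by ring
      rw [h2, h3]
      set A := 3 ^ l * 2 ^ (m + j) with hA
      unfold Tn
      rw [if_neg (by omega)]
      omega
    rw [e, ih (l + 1)]
    congr 3
    omega

theorem mersenne_pass (m : ℕ) : Tn^[m] (2 ^ m - 1) = 3 ^ m - 1 := by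
  have h := iter_mersenne 0 m 0
  simpa using h

theorem mersenne_near {n j e : ℕ} :
    |(((Tn^[e + j] (2 ^ (e + j) - 1) : ℕ) : ℤ) - 3 ^ j * ((3 ^ e : ℕ) : ℤ) : ℝ)| ≤ 1 := by
  rw [mersenne_pass]
  have h1 : 1 ≤ 3 ^ (e + j) := Nat.one_le_pow _ _ (by norm_num)
  have e1 : (((3 ^ (e + j) - 1 : ℕ) : ℤ) : ℝ) - 3 ^ j * (((3 ^ e : ℕ) : ℤ) : ℝ) = -1 := by
    have : ((3 ^ (e + j) - 1 : ℕ) : ℤ) = 3 ^ (e + j) - 1 := by push_cast [Nat.cast_sub h1]; ring
    rw [this]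
    push_cast
    rw [pow_add]; ring
  rw [e1, abs_neg, abs_one]

open Pool.Agent.H499R2.HL (H)

theorem T_eq : T = Tn := rfl

theorem T_le (y : ℕ) : ((T y : ℕ) : ℝ) + 1 ≤ 3 / 2 * ((y : ℝ) + 1) := by
  have h : 2 * (T y + 1) ≤ 3 * (y + 1) := by
    unfold T
    split_ifs <;> omega
  have h2 : (2 : ℝ) * ((T y : ℕ) + 1) ≤ 3 * ((y : ℝ) + 1) := by exact_mod_cast h
  linarith

theorem iter_le (j : ℕ) : ∀ y : ℕ, ((T^[j] y : ℕ) : ℝ) + 1 ≤ (3 / 2) ^ j * ((y : ℝ) + 1) := by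
  induction j with
  | zero => intro y; simp
  | succ j ih =>
    intro y
    rw [Function.iterate_succ_apply]
    refine (ih (T y)).trans ?_
    rw [pow_succ, mul_assoc]
    exact mul_le_mul_of_nonneg_left (T_le y) (by positivity)

theorem le_t (y j : ℕ) : ((T^[j] y : ℕ) : ℕ∞) ≤ t y := le_iSup (fun k => ((T^[k] y : ℕ) : ℕ∞)) j

theorem below_iff {y : ℕ} {B : ℝ} (hB : 0 ≤ B) : Below y B ↔ t y ≤ (⌊B⌋₊ : ℕ∞) := by
  unfold Below t
  rw [iSup_le_iff]
  constructor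
  · intro h k
    exact_mod_cast Nat.le_floor (h k)
  · intro h k
    have h1 := h k
    have h2 : T^[k] y ≤ ⌊B⌋₊ := by exact_mod_cast h1
    exact (Nat.cast_le.2 h2).trans (Nat.floor_le hB)

/-- the maximum from a time on -/
theorem t_split {y X u : ℕ} {B : ℝ} (hX : T^[u] y = X) (hpre : ∀ j, j < u → ((T^[j] y : ℕ) : ℝ) ≤ B)
    (hB : 0 ≤ B) : (Below X B → Below y B) ∧ (¬ Below X B → t y = t X) := by
  have hle : t X ≤ t y := by
    unfold t
    apply iSup_le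
    intro k
    rw [← hX, ← Function.iterate_add_apply]
    exact le_t y (k + u)
  have hterm : ∀ k, T^[k] y ≤ ⌊B⌋₊ ∨ ((T^[k] y : ℕ) : ℕ∞) ≤ t X := by
    intro k
    rcases Nat.lt_or_ge k u with h | h
    · left; exact Nat.le_floor (hpre k h)
    · right
      obtain ⟨l, rfl⟩ := Nat.exists_eq_add_of_le h
      rw [Nat.add_comm, Function.iterate_add_apply, hX]
      exact le_t X l
  constructor
  · intro h k
    rcases hterm k with h1 | h1
    · exact (Nat.cast_le.2 h1).trans (Nat.floor_le hB)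
    · have h2 := h1.trans ((below_iff hB).1 h)
      have h3 : T^[k] y ≤ ⌊B⌋₊ := by exact_mod_cast h2
      exact (Nat.cast_le.2 h3).trans (Nat.floor_le hB)
  · intro h
    rw [below_iff hB, not_le] at h
    apply le_antisymm _ hle
    unfold t
    apply iSup_le
    intro k
    rcases hterm k with h1 | h1
    · exact (Nat.cast_le.2 h1).trans h.le
    · exact h1

theorem exc_pass {κ : ℝ} {x : ℕ → ℕ} {n : ℕ} (hD : Dat κ x n) (hk : 0 ≤ kap n)
    (hlog : 4 ≤ κ / 2 * Real.log n) (hn : 1 ≤ n) {z k i : ℕ} (hi : (i : ℝ) ≤ kap n)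
    (hz : |(((Tn^[k] z : ℕ) : ℤ) - 3 ^ i * (x n : ℤ) : ℝ)| ≤ Real.exp (kap n))
    (hpre : ∀ j, j < k → ((T^[j] z : ℕ) : ℝ) ≤ 3 ^ i * x n * (n : ℝ) ^ κ) :
    t z = t (x n) ∨ (Below z (3 ^ i * x n * (n : ℝ) ^ κ) ∧ Below (x n) (3 ^ i * x n * (n : ℝ) ^ κ)) := by
  have hE := hD
  obtain ⟨u, hu, hmerge, hx2, hz2, hzle, -, -, -⟩ := dat_pass hD hk hi hz
  set B : ℝ := 3 ^ i * x n * (n : ℝ) ^ κ with hB
  have hB0 : 0 ≤ B := by positivity
  have hnr : (1 : ℝ) ≤ n := by exact_mod_cast hn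
  have hn0 : (0 : ℝ) < n := by linarith
  have hx1 : (1 : ℝ) ≤ x n := by
    have : 1 ≤ x n := by have := Nat.one_le_two_pow (n := u); omega
    exact_mod_cast this
  -- the size of the shift
  have hEx : (⌊Real.exp (kap n)⌋₊ : ℝ) ≤ x n := by
    obtain ⟨T', -, hs, -⟩ := hE
    have h1 := hs 0 (by rw [Nat.cast_zero]; exact hk)
    have h2 := Nat.floor_le (Real.exp_pos (kap n)).le
    have h3 : (0 : ℝ) < 3 ^ 0 * 2 ^ T' := by positivity
    have h4 := Real.exp_pos (kap n)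
    linarith
  -- the growth before the merging
  have hgr : 4 * (3 / 2 : ℝ) ^ u ≤ (n : ℝ) ^ κ := by
    have e0 : (n : ℝ) ^ κ = Real.exp (κ * Real.log n) := by rw [Real.rpow_def_of_pos hn0, mul_comm]
    have l32 : Real.log (3 / 2) ≤ 1 / 2 := by
      have := Real.log_le_sub_one_of_pos (show (0 : ℝ) < 3 / 2 by norm_num)
      linarith
    have e1 : (3 / 2 : ℝ) ^ u ≤ Real.exp (κ / 2 * Real.log n) := by
      calc (3 / 2 : ℝ) ^ u = Real.exp (u * Real.log (3 / 2)) := by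
            rw [Real.exp_nat_mul, Real.exp_log (by norm_num)]
        _ ≤ Real.exp (u * (1 / 2)) := Real.exp_le_exp.2 (mul_le_mul_of_nonneg_left l32 (Nat.cast_nonneg u))
        _ ≤ _ := Real.exp_le_exp.2 (by linarith)
    have e2 : (4 : ℝ) ≤ Real.exp (κ / 2 * Real.log n) := by
      have h5 := Real.add_one_le_exp (κ / 2 * Real.log n)
      linarith
    rw [e0]
    calc 4 * (3 / 2 : ℝ) ^ u ≤ Real.exp (κ / 2 * Real.log n) * Real.exp (κ / 2 * Real.log n) :=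
          mul_le_mul e2 e1 (by positivity) (Real.exp_pos _).le
      _ = Real.exp (κ * Real.log n) := by rw [← Real.exp_add]; congr 1; ring
  have hp3 : (1 : ℝ) ≤ 3 ^ i := one_le_pow₀ (by norm_num)
  have hbase : ∀ (y : ℕ), (y : ℝ) + 1 ≤ 4 * (3 ^ i * x n) → ∀ j, j < u → ((T^[j] y : ℕ) : ℝ) ≤ B := by
    intro y hy j hj
    have h1 := iter_le j y
    have h2 : (3 / 2 : ℝ) ^ j ≤ (3 / 2) ^ u := pow_le_pow_right₀ (by norm_num) hj.le
    have h3 : (3 / 2 : ℝ) ^ j * ((y : ℝ) + 1) ≤ (3 / 2) ^ u * (4 * (3 ^ i * x n)) :=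
      mul_le_mul h2 hy (by positivity) (by positivity)
    have h4 : (3 / 2 : ℝ) ^ u * (4 * (3 ^ i * x n)) ≤ B := by
      rw [hB]
      calc (3 / 2 : ℝ) ^ u * (4 * (3 ^ i * x n)) = (3 ^ i * x n) * (4 * (3 / 2) ^ u) := by ring
        _ ≤ (3 ^ i * x n) * (n : ℝ) ^ κ := mul_le_mul_of_nonneg_left hgr (by positivity)
    linarith
  have hxb : (x n : ℝ) + 1 ≤ 4 * (3 ^ i * x n) := by nlinarith
  have hzb : ((T^[k] z : ℕ) : ℝ) + 1 ≤ 4 * (3 ^ i * x n) := by
    have h1 : ((T^[k] z : ℕ) : ℝ) ≤ 3 ^ i * x n + ⌊Real.exp (kap n)⌋₊ := by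
      rw [T_eq]; exact_mod_cast hzle
    nlinarith
  -- the two trajectories
  have hX1 : T^[u] (x n) = Tn^[u] (x n) := rfl
  have hX2 : T^[u + k] z = Tn^[u] (x n) := by
    rw [Function.iterate_add_apply]; exact hmerge
  have s1 := t_split hX1 (hbase (x n) hxb) hB0
  have s2 := t_split (y := z) (u := u + k) (B := B) hX2 (by
    intro j hj
    rcases Nat.lt_or_ge j k with h | h
    · exact hpre j h
    · obtain ⟨l, rfl⟩ := Nat.exists_eq_add_of_le h
      rw [Nat.add_comm, Function.iterate_add_apply]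
      exact hbase _ hzb l (by omega)) hB0
  by_cases hX : Below (Tn^[u] (x n)) B
  · right; exact ⟨s2.1 hX, s1.1 hX⟩
  · left; rw [s2.2 hX, s1.2 hX]

theorem spr_exp3 {e : ℕ → ℕ} (he : Spread (fun n => (e n : ℤ))) :
    Spread (fun n => ((3 ^ e n : ℕ) : ℤ)) := by
  obtain ⟨δ, hδ, h⟩ := ((spread_iff _).1 he).spr
  have h1 := spr_exp h (a := 1) (b := 3) (by norm_num) (by norm_num) (by norm_num)
  have e1 : (fun n => ((3 ^ e n : ℕ) : ℤ)) = fun n => 1 * 3 ^ e n := by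
    funext n; push_cast; ring
  rw [e1]
  exact (spread_iff _).2 (h1.spread hδ)

theorem kap_log {κ : ℝ} (hκ : 0 < κ) : ∃ N₁ : ℕ, ∀ n ≥ N₁, 1 ≤ n ∧ 4 ≤ κ / 2 * Real.log n ∧
    ∀ j : ℕ, (j : ℝ) ≤ kap n → (3 : ℝ) ^ j ≤ (n : ℝ) ^ κ := by
  have hll : Tendsto (fun N : ℕ => Real.log (Real.log N)) atTop atTop :=
    Real.tendsto_log_atTop.comp log_nat_tendsto
  apply eventually_atTop.1
  filter_upwards [eventually_ge_atTop 1, log_nat_tendsto.eventually_ge_atTop (8 / κ),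
    log_nat_tendsto.eventually_ge_atTop ((2 / κ) ^ 2), hll.eventually_ge_atTop 1,
    log_nat_tendsto.eventually_ge_atTop 0] with n h1 h2 h3 h4 h5
  refine ⟨h1, ?_, fun j hj => ?_⟩
  · rw [div_le_iff₀ hκ] at h2
    linarith
  · have hn0 : (0 : ℝ) < n := by exact_mod_cast h1
    have e0 : (n : ℝ) ^ κ = Real.exp (κ * Real.log n) := by rw [Real.rpow_def_of_pos hn0, mul_comm]
    rw [e0]
    have h6 : (3 : ℝ) ≤ Real.exp 2 := by
      have h6 := Real.exp_one_gt_d9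
      have h7 : Real.exp 2 = Real.exp 1 * Real.exp 1 := by rw [← Real.exp_add]; norm_num
      rw [h7]; nlinarith
    have h7 : (j : ℝ) ≤ √ (Real.log n) := hj.trans (kap_le h4)
    have h8 : 2 / κ ≤ √ (Real.log n) := Real.le_sqrt_of_sq_le h3
    have h9 : √ (Real.log n) * √ (Real.log n) = Real.log n := Real.mul_self_sqrt h5
    calc (3 : ℝ) ^ j ≤ Real.exp 2 ^ j := pow_le_pow_left₀ (by norm_num) h6 j
      _ = Real.exp (j * 2) := (Real.exp_nat_mul 2 j).symm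
      _ ≤ Real.exp (κ * Real.log n) := by
          apply Real.exp_le_exp.2
          rw [div_le_iff₀ hκ] at h8
          nlinarith [Real.sqrt_nonneg (Real.log n)]

/-- the beginning of the trajectory of a Mersenne number is low -/
theorem mersenne_low (m j : ℕ) (hj : j ≤ m) : T^[j] (2 ^ m - 1) ≤ 3 ^ m := by
  obtain ⟨d, rfl⟩ : ∃ d, m = d + j := ⟨m - j, by omega⟩
  have h := iter_mersenne d j 0
  rw [pow_zero, one_mul, Nat.zero_add] at h
  rw [T_eq, h]
  have h1 : 2 ^ d ≤ 3 ^ d := Nat.pow_le_pow_left (by norm_num) d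
  calc 3 ^ j * 2 ^ d - 1 ≤ 3 ^ j * 2 ^ d := Nat.sub_le _ _
    _ ≤ 3 ^ j * 3 ^ d := Nat.mul_le_mul_left _ h1
    _ = 3 ^ (d + j) := by rw [pow_add, Nat.mul_comm]

/-- (1) The sequences `n` and the primes (`Nat.nth Nat.Prime n`) are spread; if `x` is spread then so is
`f (x n)` for every nonconstant polynomial `f` with integer coefficients, and if the sequence of natural
numbers `e` is spread then so is `a b ^ (e n)` for all `a ≠ 0` and odd `b ≠ 1, -1`.
Let `κ > 0`.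
(2) Let the sequence of natural numbers `x` be spread. For almost all `n`, if the trajectory of a natural
number `z` is at time `k` within distance `exp (W n)` of one of the numbers `3 ^ i x n`, `i ≤ W n`, and its
first `k` terms are at most `3 ^ i x n n ^ κ`, then `t z = t (x n)`, or all the terms of the trajectories
of `z` and `x n` are at most `3 ^ i x n n ^ κ`.
(3) Let the sequence of natural numbers `e` be spread. For almost all `n`, with `m = e n`, for all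
`j ≤ W n`: `t (2 ^ (m + j) - 1) = t (2 ^ m - 1)`, or all the terms of the trajectories of `2 ^ (m + j) - 1`
and `2 ^ m - 1` are at most `3 ^ m n ^ κ`. (The trajectory of `2 ^ m - 1` contains `3 ^ m - 1`.) -/
theorem result :
    (Spread (fun n => (n : ℤ)) ∧ Spread (fun n => ((Nat.nth Nat.Prime n : ℕ) : ℤ)) ∧
      (∀ x : ℕ → ℤ, Spread x → ∀ f : Polynomial ℤ, 1 ≤ f.natDegree → Spread (fun n => f.eval (x n))) ∧
      (∀ e : ℕ → ℕ, Spread (fun n => (e n : ℤ)) → ∀ a b : ℤ, a ≠ 0 → b % 2 = 1 → b ≠ 1 → b ≠ -1 →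
        Spread (fun n => a * b ^ e n))) ∧
    ∀ κ : ℝ, 0 < κ →
    (∀ x : ℕ → ℕ, Spread (fun n => (x n : ℤ)) → AlmostAll (fun n => ∀ z k i : ℕ, (i : ℝ) ≤ W n →
        |((T^[k] z : ℕ) : ℝ) - 3 ^ i * x n| ≤ Real.exp (W n) →
        (∀ j, j < k → ((T^[j] z : ℕ) : ℝ) ≤ 3 ^ i * x n * (n : ℝ) ^ κ) →
        t z = t (x n) ∨
          (Below z (3 ^ i * x n * (n : ℝ) ^ κ) ∧ Below (x n) (3 ^ i * x n * (n : ℝ) ^ κ)))) ∧
    (∀ e : ℕ → ℕ, Spread (fun n => (e n : ℤ)) → AlmostAll (fun n => ∀ m j : ℕ, m = e n → (j : ℝ) ≤ W n →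
        t (2 ^ (m + j) - 1) = t (2 ^ m - 1) ∨
          (Below (2 ^ (m + j) - 1) (3 ^ m * (n : ℝ) ^ κ) ∧ Below (2 ^ m - 1) (3 ^ m * (n : ℝ) ^ κ)))) := by
  classical
  have hid : Spread (fun n => (n : ℤ)) := (spread_iff _).2 (spr_id.spread one_pos)
  have hpr : Spread (fun n => ((Nat.nth Nat.Prime n : ℕ) : ℤ)) :=
    (spread_iff _).2 (spr_prime.spread (by norm_num))
  refine ⟨⟨hid, hpr, ?_, ?_⟩, fun κ hκ => ⟨fun x hx => ?_, fun e he => ?_⟩⟩
  · intro x hx f hf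
    exact (spread_iff _).2 (((spread_iff x).1 hx).poly hf)
  · intro e he a b ha hb h1 h2
    have h3 : b ^ 2 ≠ 1 := by
      intro h
      rcases sq_one h with h | h
      · exact h1 h
      · exact h2 h
    obtain ⟨δ, hδ, h⟩ := ((spread_iff _).1 he).spr
    exact (spread_iff _).2 ((spr_exp h ha hb h3).spread hδ)
  · obtain ⟨N₁, hN₁⟩ := kap_log hκ
    refine ((dat_all hx hκ).and_large N₁).mono (fun n hn z k i hi hz hpre => ?_)
    obtain ⟨hn, hnN⟩ := hn
    obtain ⟨g1, g2, -⟩ := hN₁ n hnN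
    refine exc_pass hn.1 hn.2 g2 g1 hi ?_ hpre
    have e1 : (((T^[k] z : ℕ) : ℤ) : ℝ) = ((T^[k] z : ℕ) : ℝ) := by push_cast; rfl
    have e2 : ((x n : ℤ) : ℝ) = ((x n : ℕ) : ℝ) := by push_cast; rfl
    rw [T_eq] at e1 hz
    rw [e1, e2]
    exact hz
  · obtain ⟨N₁, hN₁⟩ := kap_log (show 0 < κ / 2 by positivity)
    refine ((dat_all (spr_exp3 he) (show 0 < κ / 2 by positivity)).and_large N₁).mono
      (fun n hn m j hm hj => ?_)
    subst hm
    obtain ⟨hn, hnN⟩ := hn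
    obtain ⟨g1, g2, g3⟩ := hN₁ n hnN
    have hE : (1 : ℝ) ≤ Real.exp (kap n) := Real.one_le_exp hn.2
    have hnr : (1 : ℝ) ≤ n := by exact_mod_cast g1
    have hn0 : (0 : ℝ) < n := by linarith
    have hpow : (1 : ℝ) ≤ (n : ℝ) ^ (κ / 2) := Real.one_le_rpow hnr (by positivity)
    have hsplit : (n : ℝ) ^ (κ / 2) * (n : ℝ) ^ (κ / 2) = (n : ℝ) ^ κ := by
      rw [← Real.rpow_add hn0, add_halves]
    set B : ℝ := 3 ^ e n * (n : ℝ) ^ κ with hB
    have hB0 : 0 ≤ B := by positivity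
    have hBl : ∀ l : ℕ, (l : ℝ) ≤ kap n → (3 : ℝ) ^ l * ((3 ^ e n : ℕ) : ℝ) * (n : ℝ) ^ (κ / 2) ≤ B := by
      intro l hl
      have h1 := g3 l hl
      rw [hB, ← hsplit]
      push_cast
      have h2 : (0 : ℝ) < 3 ^ e n * (n : ℝ) ^ (κ / 2) := by positivity
      calc (3 : ℝ) ^ l * 3 ^ e n * (n : ℝ) ^ (κ / 2) = 3 ^ l * (3 ^ e n * (n : ℝ) ^ (κ / 2)) := by ring
        _ ≤ (n : ℝ) ^ (κ / 2) * (3 ^ e n * (n : ℝ) ^ (κ / 2)) := mul_le_mul_of_nonneg_right h1 h2.le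
        _ = _ := by ring
    have hbm : ∀ {y : ℕ} {b : ℝ}, b ≤ B → Below y b → Below y B := fun hb h k => (h k).trans hb
    have hM : ∀ l : ℕ, (l : ℝ) ≤ kap n → t (2 ^ (e n + l) - 1) = t (3 ^ e n) ∨
        (Below (2 ^ (e n + l) - 1) B ∧ Below (3 ^ e n) B) := by
      intro l hl
      have h1 := exc_pass (x := fun n => 3 ^ e n) hn.1 hn.2 g2 g1 (z := 2 ^ (e n + l) - 1) (k := e n + l)
        (i := l) hl ((mersenne_near (n := n)).trans hE) (by
          intro j' hj'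
          have h2 := mersenne_low (e n + l) j' hj'.le
          have h3 : ((T^[j'] (2 ^ (e n + l) - 1) : ℕ) : ℝ) ≤ ((3 ^ (e n + l) : ℕ) : ℝ) := by exact_mod_cast h2
          refine h3.trans ?_
          push_cast
          rw [pow_add]
          have h4 : (0 : ℝ) ≤ 3 ^ l * 3 ^ e n := by positivity
          calc (3 : ℝ) ^ e n * 3 ^ l = (3 ^ l * 3 ^ e n) * 1 := by ring
            _ ≤ (3 ^ l * 3 ^ e n) * (n : ℝ) ^ (κ / 2) := mul_le_mul_of_nonneg_left hpow h4)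
      rcases h1 with h1 | ⟨h1, h2⟩
      · left; exact h1
      · right
        exact ⟨hbm (hBl l hl) h1, hbm (hBl l hl) h2⟩
    have hc : ∀ {y y' : ℕ}, t y = t y' → Below y' B → Below y B := by
      intro y y' h1 h2
      rw [below_iff hB0, h1]
      exact (below_iff hB0).1 h2
    have h0 := hM 0 (by rw [Nat.cast_zero]; exact hn.2)
    rw [add_zero] at h0
    rcases hM j hj with h1 | ⟨h1, h2⟩
    · rcases h0 with h3 | ⟨h3, h4⟩
      · left; rw [h1, h3]
      · right; exact ⟨hc h1 h4, h3⟩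
    · right
      rcases h0 with h3 | ⟨h3, h4⟩
      · exact ⟨h1, hc h3 h2⟩
      · exact ⟨h1, h3⟩

end Pool.Agent.Results.MP_0a5adf_nt.ExcursionsOfMersenneNumbers
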