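import Pool.Agent.Y927.GP.M2
import Pool.Agent.Y57.HS.Traj2

/-!
# Maximum excursions and the integers which arise from an arbitrary integer by changing a few digits

In every odd base `q` all but a proportion `exp (-δ s)` of the integers `n` which arise from an arbitrary integer with at most `B s` digits by
changing `s` digits have the following property: if `v = f n` is positive (`f` a nonconstant integer polynomial), the maximum excursion
`t(v)` is at most `v ^ (1 + ε)` or it is the maximum excursion of a term `≤ v ^ (1 - η)` of the trajectory of `v`.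
-/

set_option autoImplicit false

namespace Pool.Agent.Results.MP_0a5adf_nt.FewDigitChanges

open Finset Filter Polynomial Pool.Agent.Y927.GP

/-- The accelerated `3x+1` function. -/
def T (n : ℕ) : ℕ := if n % 2 = 0 then n / 2 else (3 * n + 1) / 2

/-- The maximum excursion. -/
noncomputable def t (n : ℕ) : ℕ∞ := ⨆ k : ℕ, ((T^[k] n : ℕ) : ℕ∞)

/-- The digit number `i` (counted from the right, beginning with `0`) of `n` in base `q`. -/
def digit (q i n : ℕ) : ℕ := n / q ^ i % q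

/-- The number which arises from the number `N` with at most `K` digits in base `q`, if for every `i ∈ S`
the digit number `i` is replaced by `φ i`. -/
def change (q K N : ℕ) (φ : ℕ → ℕ) (S : Finset ℕ) : ℕ :=
  ∑ i ∈ range K, (if i ∈ S then φ i else digit q i N) * q ^ i

open Classical in
/-- The number of the choices of `s` of the `K` positions for which the number obtained by changing the digits of `N` at
the chosen positions (according to `φ`) does not have the property `E`. -/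
noncomputable def exceptions (q K s N : ℕ) (φ : ℕ → ℕ) (E : ℕ → Prop) : ℕ :=
  ((powersetCard s (range K)).filter (fun S => ¬ E (change q K N φ S))).card

theorem exceptions_le {q K s N : ℕ} {φ : ℕ → ℕ} {E : ℕ → Prop} {X : ℝ}
    (h : ∀ A ⊆ powersetCard s (range K), (∀ S ∈ A, ¬ E (change q K N φ S)) → (A.card : ℝ) ≤ X) :
    (exceptions q K s N φ E : ℝ) ≤ X := by
  classical
  unfold exceptions
  exact h _ (filter_subset _ _) (fun S hS => (mem_filter.1 hS).2)

theorem T_cast (n : ℕ) : ((T n : ℕ) : ℤ) = Mo.T 2 3 (fun _ => -1) (n : ℤ) := by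
  unfold T Mo.T
  push_cast
  split_ifs with h1 h2 h2 <;> omega

theorem iter_cast (n : ℕ) (k : ℕ) : ((T^[k] n : ℕ) : ℤ) = (Mo.T 2 3 (fun _ => -1))^[k] (n : ℤ) := by
  induction k generalizing n with
  | zero => rfl
  | succ k ih =>
    rw [Function.iterate_succ_apply, Function.iterate_succ_apply, ih, T_cast]

theorem t_split {v k A : ℕ} (h : ∀ j ≤ k, T^[j] v ≤ A) : t v ≤ (A : ℕ∞) ∨ t v = t (T^[k] v) := by
  have hle : ∀ j, ((T^[j] v : ℕ) : ℕ∞) ≤ (A : ℕ∞) ∨ ((T^[j] v : ℕ) : ℕ∞) ≤ t (T^[k] v) := by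
    intro j
    rcases le_or_gt j k with hj | hj
    · left
      exact_mod_cast h j hj
    · right
      obtain ⟨i, rfl⟩ : ∃ i, j = i + k := ⟨j - k, by omega⟩
      rw [Function.iterate_add_apply]
      exact le_iSup (fun i => ((T^[i] (T^[k] v) : ℕ) : ℕ∞)) i
  rcases le_or_gt (t (T^[k] v)) (A : ℕ∞) with h1 | h1
  · left
    apply iSup_le
    intro j
    rcases hle j with h2 | h2
    · exact h2
    · exact h2.trans h1
  · right
    apply le_antisymm
    · apply iSup_le
      intro j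
      rcases hle j with h2 | h2
      · exact h2.trans h1.le
      · exact h2
    · apply iSup_le
      intro i
      rw [← Function.iterate_add_apply]
      exact le_iSup (fun i => ((T^[i] v : ℕ) : ℕ∞)) (i + k)

/-- **Main theorem.** Let `f` be a polynomial of degree at least `1` with integer coefficients, `q ≥ 2` odd, `B, ε > 0`. There are
`η, δ > 0` and `s₀` such that for all `s ≥ s₀` and `K` with `2 s ≤ K ≤ B s` the following holds. Let `0 ≤ N < q ^ K` be an arbitrary
integer and prescribe for every position `j` a digit `φ j` different from the digit of `N` in base `q`. For all but at most a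
proportion `exp (-δ s)` of the choices of `s` of the `K` positions the number `n` obtained by replacing the digits of `N` at these
positions has the following property: if `v = f n` is positive, there is a `k` such that `T^k(v) ≤ v ^ (1 - η)` and
`T^j(v) ≤ v ^ (1 + ε)` for all `j ≤ k`; so the maximum excursion `t(v)` is at most `v ^ (1 + ε)` or equal to the maximum excursion
of the smaller number `T^k(v)`. -/
theorem result (f : ℤ[X]) (hf : 1 ≤ f.natDegree) (q : ℕ) (hq : 2 ≤ q) (hq2 : Odd q) (B ε : ℝ) (hε : 0 < ε) :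
    ∃ η δ : ℝ, 0 < η ∧ 0 < δ ∧ ∃ s₀ : ℕ, ∀ s K : ℕ, s₀ ≤ s → 2 * s ≤ K → (K : ℝ) ≤ B * s →
      ∀ N : ℕ, N < q ^ K → ∀ φ : ℕ → ℕ, (∀ j, φ j < q ∧ φ j ≠ digit q j N) →
      (exceptions q K s N φ (fun n => ∀ v : ℕ, 1 ≤ v → f.eval (n : ℤ) = v → ∃ k : ℕ,
        ((T^[k] v : ℕ) : ℝ) ≤ (v : ℝ) ^ (1 - η) ∧ (∀ j ≤ k, ((T^[j] v : ℕ) : ℝ) ≤ (v : ℝ) ^ (1 + ε)) ∧
        (t v ≤ (⌊(v : ℝ) ^ (1 + ε)⌋₊ : ℕ∞) ∨ t v = t (T^[k] v))) : ℝ) ≤
          Real.exp (-(δ * s)) * (K.choose s : ℝ) := by
  have hc : Nat.Coprime 3 2 := by norm_num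
  have hr : ∀ j : ℤ, 1 ≤ j → j < (2 : ℕ) → ((2 : ℕ) : ℤ) ∣ ((3 : ℕ) : ℤ) * j - (fun _ : ℤ => (-1 : ℤ)) j := by
    intro j h1 h2
    push_cast at h2 ⊢
    have hj : j = 1 := by omega
    rw [hj]
    norm_num
  have D := Mo.data (r := fun _ => (-1 : ℤ)) (le_refl 2) hc hr
  have hC := Mo.cls (m := 3) (r := fun _ => (-1 : ℤ)) (le_refl 2)
  have hTT : (Pool.Agent.H319R2.Leigh.gm D).T = Mo.T 2 3 (fun _ => -1) := by
    rw [Pool.Agent.H319R2.Leigh.gm_T, Mo.T_eq]
  have hqd' : Nat.Coprime q (Pool.Agent.H319R2.Leigh.gm D).d := (Nat.coprime_two_right).2 hq2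
  have hmu := Mo.mu_eq (le_refl 2) D
  have hl2 : 0 < Real.log 2 := Real.log_pos (by norm_num)
  obtain ⟨μ, hμdef⟩ : ∃ μ, μ = mu (Pool.Agent.H319R2.Leigh.gm D) (Mo.CC 2) (fun _ => 1 / ((2 : ℕ) : ℝ)) := ⟨_, rfl⟩
  have hμ : μ < 0 := by
    rw [hμdef, hmu]
    have h2 : Real.log 3 < 2 * Real.log 2 := by
      have : (2 : ℝ) * Real.log 2 = Real.log 4 := by
        rw [show (4 : ℝ) = 2 ^ 2 by norm_num, Real.log_pow]
        norm_num
      rw [this]
      exact Real.log_lt_log (by norm_num) (by norm_num)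
    push_cast
    norm_num
    linarith
  obtain ⟨ε', hε'⟩ : ∃ ε', ε' = min ε (-μ / (2 * Real.log 2)) := ⟨_, rfl⟩
  have hε'0 : 0 < ε' := by rw [hε']; exact lt_min hε (by apply div_pos <;> linarith)
  have hε'1 : ε' ≤ ε := by rw [hε']; exact min_le_left _ _
  have hε'2 : ε' ≤ -μ / (2 * Real.log 2) := by rw [hε']; exact min_le_right _ _
  obtain ⟨c, δ, hc0, hδ, s₀, h⟩ := Pool.Agent.Y57.HS.traj_exp (Pool.Agent.H319R2.Leigh.gm_fac D)
    (Pool.Agent.H319R2.Leigh.gm_cls D hC) hf q hq hqd' hε'0 1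
  rw [← hμdef] at h
  obtain ⟨B', hB', s₁, h'⟩ := Pool.Agent.Y57.HS.size_up q hq f c hc0 B
  obtain ⟨c₂, hc₂⟩ : ∃ c₂, c₂ = c * (-μ) / (4 * Real.log 2) := ⟨_, rfl⟩
  have hc₂0 : 0 < c₂ := by
    rw [hc₂]
    apply div_pos
    · exact mul_pos hc0 (by linarith)
    · positivity
  have hev : ∀ᶠ s : ℕ in atTop, -μ ≤ c₂ * s := by
    have h2 : Tendsto (fun s : ℕ => c₂ * (s : ℝ)) atTop atTop :=
      tendsto_natCast_atTop_atTop.const_mul_atTop hc₂0
    exact h2.eventually (eventually_ge_atTop _)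
  obtain ⟨s₂, hs₂⟩ := eventually_atTop.1 hev
  refine ⟨c₂ / B', δ, by positivity, hδ, max s₀ (max s₁ s₂), fun s K hs hsK hKB N hN φ hφ => ?_⟩
  have hs1 : s₁ ≤ s := ((le_max_left _ _).trans (le_max_right _ _)).trans hs
  have hs2 : s₂ ≤ s := ((le_max_right _ _).trans (le_max_right _ _)).trans hs
  apply exceptions_le
  intro A hA hE
  refine h s K ((le_max_left _ _).trans hs) hsK N hN φ hφ A hA (fun S hS => ⟨Mo.mem_S (le_refl 2) _, ?_⟩)
  rintro ⟨h1, h2⟩
  apply hE S hS
  intro v hv hfv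
  have hfv' : f.eval ((Pool.Agent.TH894.SM.change q K N φ S : ℕ) : ℤ) = v := hfv
  rw [Real.rpow_one] at h1
  have h6 := h' s K hs1 hKB N φ (fun j => (hφ j).1) S h1
  rw [hfv'] at h1 h2 h6
  have hv1 : (1 : ℝ) ≤ v := by exact_mod_cast hv
  have hvabs : |((v : ℤ) : ℝ)| = v := by
    rw [Int.cast_natCast]
    exact abs_of_nonneg (by linarith)
  rw [hvabs] at h1 h6
  have hcs : 0 ≤ c * s / Real.log 2 := by positivity
  have hfl := Nat.floor_le hcs
  have hfl2 := Nat.lt_floor_add_one (c * s / Real.log 2)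
  obtain ⟨k, hk⟩ : ∃ k, k = ⌊c * s / Real.log 2⌋₊ := ⟨_, rfl⟩
  rw [← hk] at hfl hfl2
  have hgd : ((Pool.Agent.H319R2.Leigh.gm D).d : ℝ) = 2 := rfl
  have hstep : ∀ j ≤ k, ((T^[j] v : ℕ) : ℝ) ≤ Real.exp (c * s * ε' + j * μ) * v := by
    intro j hj
    have h7 : (j : ℝ) * Real.log 2 ≤ c * s := by
      have : (j : ℝ) ≤ k := by exact_mod_cast hj
      rw [le_div_iff₀ hl2] at hfl
      nlinarith
    have h8 := (h2 j (by
      rw [hgd]
      calc (2 : ℝ) ^ j = Real.exp (j * Real.log 2) := by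
            rw [Real.exp_nat_mul, Real.exp_log (by norm_num)]
        _ ≤ Real.exp (c * s) := Real.exp_le_exp.2 h7)).2
    rw [hTT, ← iter_cast, hvabs, Int.cast_natCast, abs_of_nonneg (Nat.cast_nonneg _), ← Real.exp_mul, ← Real.exp_add] at h8
    exact h8
  have hup : ∀ j ≤ k, ((T^[j] v : ℕ) : ℝ) ≤ (v : ℝ) ^ (1 + ε) := by
    intro j hj
    refine (hstep j hj).trans ?_
    have h9 : Real.exp (c * s * ε' + j * μ) ≤ (v : ℝ) ^ ε := by
      calc Real.exp (c * s * ε' + j * μ) ≤ Real.exp (c * s * ε) := by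
            apply Real.exp_le_exp.2
            have hj0 : (0 : ℝ) ≤ j := Nat.cast_nonneg _
            have h10 : (j : ℝ) * μ ≤ 0 := mul_nonpos_of_nonneg_of_nonpos hj0 hμ.le
            have h11 : c * s * ε' ≤ c * s * ε := mul_le_mul_of_nonneg_left hε'1 (by positivity)
            linarith
        _ = (Real.exp (c * s)) ^ ε := by rw [← Real.exp_mul]
        _ ≤ (v : ℝ) ^ ε := Real.rpow_le_rpow (by positivity) h1 hε.le
    calc Real.exp (c * s * ε' + j * μ) * v ≤ (v : ℝ) ^ ε * v := mul_le_mul_of_nonneg_right h9 (by linarith)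
      _ = (v : ℝ) ^ (1 + ε) := by
          rw [add_comm, Real.rpow_add (by linarith), Real.rpow_one]
  refine ⟨k, ?_, hup, ?_⟩
  · refine (hstep k le_rfl).trans ?_
    refine le_trans ?_ (Pool.Agent.Y57.HS.exp_to_pow hc₂0 hB' (by linarith : (0 : ℝ) < v) h6).1
    apply mul_le_mul_of_nonneg_right _ (by linarith)
    apply Real.exp_le_exp.2
    have h8 := hs₂ s hs2
    have h9 : (k : ℝ) * μ ≤ (c * s / Real.log 2 - 1) * μ := by
      apply mul_le_mul_of_nonpos_right _ hμ.le
      linarith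
    have h10 : c * s * ε' ≤ c * s * (-μ / (2 * Real.log 2)) := mul_le_mul_of_nonneg_left hε'2 (by positivity)
    have h11 : c * s * (-μ / (2 * Real.log 2)) + (c * s / Real.log 2 - 1) * μ = -(2 * (c₂ * s)) - μ := by
      rw [hc₂]
      field_simp
      ring
    linarith
  · apply t_split
    intro j hj
    exact Nat.le_floor (hup j hj)

end Pool.Agent.Results.MP_0a5adf_nt.FewDigitChanges
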