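import Pool.Agent.Y966.LD.Main5

/-!
The shape of the trajectories of the integers with a given total stopping time, and their maximum
excursions.
-/

set_option autoImplicit false

namespace Pool.Agent.Results.MP_0a5adf_nt.LevelShape

/-- the accelerated `3x+1` map -/
def T (n : ℕ) : ℕ := if n % 2 = 0 then n / 2 else (3 * n + 1) / 2

/-- `k` is the total stopping time of `n`: the least `k ≥ 0` with `T^(k)(n) = 1` (so it is finite). -/
def IsStoppingTime (n k : ℕ) : Prop := IsLeast {j : ℕ | T^[j] n = 1} k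

/-- For `j = 0, ..., k` the number `log (T^(j)(n))` is within `η k` of `(log (16/3) / 4) (k - j)`. -/
def Straight (η : ℝ) (n k : ℕ) : Prop :=
  ∀ j : ℕ, j ≤ k → |Real.log (T^[j] n : ℕ) - Real.log (16 / 3) / 4 * (k - j)| ≤ η * k

/-- The maximum excursion of `n` satisfies `t(n) ≤ c`. -/
def ExcursionLE (n : ℕ) (c : ℝ) : Prop := ∀ j : ℕ, (T^[j] n : ℝ) ≤ c

open Pool.Agent.Y966.LD in
lemma eventually_small {k n j : ℕ} (h : IsStoppingTime n k) (hj : k ≤ j) : T^[j] n ≤ 2 := by
  obtain ⟨i, rfl⟩ := Nat.exists_eq_add_of_le hj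
  rw [Nat.add_comm, Function.iterate_add_apply]
  have h1 : T^[k] n = 1 := h.1
  rw [h1]
  have : ∀ i : ℕ, T^[i] 1 = 1 ∨ T^[i] 1 = 2 := by
    intro i
    induction i with
    | zero => left; rfl
    | succ i ih =>
      rw [Function.iterate_succ_apply']
      rcases ih with h | h
      · right; rw [h]; rfl
      · left; rw [h]; rfl
  rcases this i with h | h <;> omega

/-- Let `η > 0`. There is `c > 0` such that for all large `k` the set of the `n` with total stopping
time `k` is finite, not empty, and all but a proportion at most `exp (- c k)` of its members satisfy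
`|log (T^(j)(n)) - (log (16/3) / 4) (k - j)| ≤ η k` for all `0 ≤ j ≤ k` and `t(n) ≤ n ^ (1 + η)`. -/
theorem result (η : ℝ) (hη : 0 < η) : ∃ c : ℝ, 0 < c ∧ ∃ k₀ : ℕ, ∀ k : ℕ, k₀ ≤ k →
    {n : ℕ | IsStoppingTime n k}.Finite ∧ {n : ℕ | IsStoppingTime n k}.Nonempty ∧
    ({n : ℕ | IsStoppingTime n k ∧
      ¬ (Straight η n k ∧ ExcursionLE n ((n : ℝ) ^ (1 + η)))}.ncard : ℝ) ≤
      Real.exp (-(c * k)) * ({n : ℕ | IsStoppingTime n k}.ncard : ℝ) := by
  have hL : 0 < Real.log (16 / 3) := Real.log_pos (by norm_num)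
  set L : ℝ := Real.log (16 / 3) / 4 with hLdef
  have hL0 : 0 < L := by positivity
  set e : ℝ := min η (η * L / (2 * (2 + η))) with he
  have he0 : 0 < e := lt_min hη (by positivity)
  have he1 : e ≤ η := min_le_left _ _
  have he2 : e * (2 + η) ≤ η * L / 2 := by
    have h1 : e ≤ η * L / (2 * (2 + η)) := min_le_right _ _
    rw [le_div_iff₀ (by positivity)] at h1
    linarith
  obtain ⟨c, hc, k₁, hk₁⟩ := Pool.Agent.Y966.LD.shape he0
  obtain ⟨k₂, hk₂⟩ := exists_nat_ge (2 * Real.log 2 / L)
  refine ⟨c, hc, max k₁ k₂, fun k hk => ⟨Pool.Agent.Y966.LD.Lev_finite k, ?_, ?_⟩⟩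
  · refine ⟨2 ^ k, ?_, ?_⟩
    · have : ∀ k : ℕ, T^[k] (2 ^ k) = 1 := by
        intro k
        induction k with
        | zero => rfl
        | succ k ih =>
          rw [Function.iterate_succ_apply]
          have h1 : T (2 ^ (k + 1)) = 2 ^ k := by
            unfold T
            rw [if_pos (by rw [pow_succ]; omega), pow_succ]
            omega
          rw [h1, ih]
      exact this k
    · intro j hj
      have hj' : T^[j] (2 ^ k) = 1 := hj
      by_contra hlt
      push Not at hlt
      have h1 : ∀ j m : ℕ, T^[j] (2 ^ (j + m)) = 2 ^ m := by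
        intro j
        induction j with
        | zero => intro m; simp
        | succ j ih =>
          intro m
          rw [Function.iterate_succ_apply]
          have h1 : T (2 ^ (j + 1 + m)) = 2 ^ (j + m) := by
            unfold T
            rw [show j + 1 + m = (j + m) + 1 by ring, if_pos (by rw [pow_succ]; omega), pow_succ]
            omega
          rw [h1, ih]
      obtain ⟨m, rfl⟩ := Nat.exists_eq_add_of_lt hlt
      rw [add_assoc, h1] at hj'
      have : 2 ^ 1 ≤ 2 ^ (m + 1) := Nat.pow_le_pow_right (by norm_num) (by omega)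
      omega
  · have hk1 : k₁ ≤ k := (le_max_left _ _).trans hk
    have hk2 : (k₂ : ℝ) ≤ k := by exact_mod_cast (le_max_right _ _).trans hk
    have hk2' : 2 * Real.log 2 ≤ L * k := by
      have := hk₂.trans hk2
      rw [div_le_iff₀ hL0] at this
      linarith
    refine le_trans ?_ (hk₁ k hk1)
    have hfin : {n : ℕ | n ∈ Pool.Agent.Y966.LD.Lev k ∧ ∃ j : ℕ, j ≤ k ∧
        e * k < |Real.log ((Pool.Agent.H395R2.G3.fT^[j] n : ℕ) : ℝ) -
          (Real.log (16 / 3) / 4) * (k - j)|}.Finite :=
      (Pool.Agent.Y966.LD.Lev_finite k).subset fun n hn => hn.1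
    have hsub : {n : ℕ | IsStoppingTime n k ∧
        ¬ (Straight η n k ∧ ExcursionLE n ((n : ℝ) ^ (1 + η)))} ⊆
        {n : ℕ | n ∈ Pool.Agent.Y966.LD.Lev k ∧ ∃ j : ℕ, j ≤ k ∧
        e * k < |Real.log ((Pool.Agent.H395R2.G3.fT^[j] n : ℕ) : ℝ) -
          (Real.log (16 / 3) / 4) * (k - j)|} := by
      rintro n ⟨hn1, hn2⟩
      refine ⟨hn1, ?_⟩
      by_contra hcon
      push Not at hcon
      apply hn2
      have hk0 : (0 : ℝ) ≤ k := Nat.cast_nonneg k
      have hall : ∀ j : ℕ, j ≤ k → |Real.log ((T^[j] n : ℕ) : ℝ) - L * (k - j)| ≤ e * k := hcon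
      have hn0 : 1 ≤ n := Pool.Agent.Y966.LD.pos_of_least hn1
      have hnR : (0 : ℝ) < n := by exact_mod_cast hn0
      refine ⟨fun j hj => (hall j hj).trans (mul_le_mul_of_nonneg_right he1 hk0), ?_⟩
      -- lower bound for log n
      have h0 := (abs_le.1 (hall 0 (Nat.zero_le k))).1
      simp only [Function.iterate_zero, id, Nat.cast_zero, sub_zero] at h0
      have hlogn : (L - e) * k ≤ Real.log n := by linarith
      have h5 : (L + e) * k ≤ (1 + η) * Real.log n := by
        have h6 : (1 + η) * ((L - e) * k) ≤ (1 + η) * Real.log n :=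
          mul_le_mul_of_nonneg_left hlogn (by positivity)
        have h7 : (L + e) * k ≤ (1 + η) * ((L - e) * k) := by
          have h8 : (L + e) ≤ (1 + η) * (L - e) := by
            have : 0 < η * L := by positivity
            nlinarith
          calc (L + e) * k ≤ ((1 + η) * (L - e)) * k := mul_le_mul_of_nonneg_right h8 hk0
            _ = _ := by ring
        exact h7.trans h6
      intro j
      rcases le_or_gt j k with hj | hj
      · have h1 := (abs_le.1 (hall j hj)).2
        have h2 : Real.log ((T^[j] n : ℕ) : ℝ) ≤ (1 + η) * Real.log n := by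
          have h3 : 0 ≤ L * j := by positivity
          nlinarith
        have h3 : (0 : ℝ) < ((T^[j] n : ℕ) : ℝ) := by
          have := Pool.Agent.Y966.LD.pos_of_least (Pool.Agent.Y966.LD.lev_iter hn1 hj)
          exact_mod_cast this
        rw [Real.rpow_def_of_pos hnR, ← Real.log_le_iff_le_exp h3]
        linarith
      · have h1 := eventually_small hn1 hj.le
        have h2 : ((T^[j] n : ℕ) : ℝ) ≤ 2 := by exact_mod_cast h1
        refine h2.trans ?_
        rw [Real.rpow_def_of_pos hnR, ← Real.log_le_iff_le_exp (by norm_num)]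
        have h3 : 0 ≤ e * k := by positivity
        nlinarith [Real.log_pos (show (1 : ℝ) < 2 by norm_num)]
    exact_mod_cast Set.ncard_le_ncard hsub hfin

end Pool.Agent.Results.MP_0a5adf_nt.LevelShape
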